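import Mathlib

/-!
# MP_fe8c84_an: uniqueness for the Hamilton-Jacobi mass equation with continuous data (Q1, TRUE)

`m_t + (m_ρ)_+^α m = 0`.  We prove the comparison principle for all (merely continuous) viscosity
sub- and supersolutions.  The Hamiltonian is nondecreasing in `m_ρ`, so a penalty that is
nondecreasing in `ρ` localises the doubling-of-variables argument to `[0,T] × [0,R]` at no cost,
and no uniform continuity is needed.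
-/

open Set Filter Topology

namespace Pool.Agent.Results.MP_fe8c84_an.Comparison

/-- `p ∈ D⁺ f(x)`: the Fréchet superdifferential, i.e.
`limsup_{y → x} (f(y) - f(x) - p·(y-x)) / |y-x| ≤ 0`. -/
def SuperDiff (f : ℝ × ℝ → ℝ) (x p : ℝ × ℝ) : Prop :=
  ∀ δ : ℝ, 0 < δ → ∀ᶠ y in 𝓝 x,
    f y - f x - (p.1 * (y.1 - x.1) + p.2 * (y.2 - x.2)) ≤ δ * ‖y - x‖

/-- `p ∈ D⁻ f(x)`: the Fréchet subdifferential, i.e.
`liminf_{y → x} (f(y) - f(x) - p·(y-x)) / |y-x| ≥ 0`. -/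
def SubDiff (f : ℝ × ℝ → ℝ) (x p : ℝ × ℝ) : Prop :=
  ∀ δ : ℝ, 0 < δ → ∀ᶠ y in 𝓝 x,
    -(δ * ‖y - x‖) ≤ f y - f x - (p.1 * (y.1 - x.1) + p.2 * (y.2 - x.2))

/-- Viscosity subsolution of `m_t + (m_ρ)_+^α m = 0`, `m(0,·) = m₀`, `m(·,0) = 0`. -/
def IsSubsolution (α : ℝ) (m₀ : ℝ → ℝ) (m : ℝ × ℝ → ℝ) : Prop :=
  ContinuousOn m (Ici 0 ×ˢ Ici 0) ∧
  (∀ z : ℝ × ℝ, 0 < z.1 → 0 < z.2 → ∀ p : ℝ × ℝ, SuperDiff m z p →
    p.1 + (max p.2 0) ^ α * m z ≤ 0) ∧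
  (∀ ρ : ℝ, 0 ≤ ρ → m (0, ρ) ≤ m₀ ρ) ∧ (∀ t : ℝ, 0 ≤ t → m (t, 0) ≤ 0)

/-- Viscosity supersolution of `m_t + (m_ρ)_+^α m = 0`, `m(0,·) = m₀`, `m(·,0) = 0`. -/
def IsSupersolution (α : ℝ) (m₀ : ℝ → ℝ) (m : ℝ × ℝ → ℝ) : Prop :=
  ContinuousOn m (Ici 0 ×ˢ Ici 0) ∧
  (∀ z : ℝ × ℝ, 0 < z.1 → 0 < z.2 → ∀ p : ℝ × ℝ, SubDiff m z p →
    0 ≤ p.1 + (max p.2 0) ^ α * m z) ∧
  (∀ ρ : ℝ, 0 ≤ ρ → m₀ ρ ≤ m (0, ρ)) ∧ (∀ t : ℝ, 0 ≤ t → 0 ≤ m (t, 0))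

/-- Viscosity solution: sub- and supersolution. -/
def IsSolution (α : ℝ) (m₀ : ℝ → ℝ) (m : ℝ × ℝ → ℝ) : Prop :=
  IsSubsolution α m₀ m ∧ IsSupersolution α m₀ m

lemma superDiff_of_quad {f : ℝ × ℝ → ℝ} {x p : ℝ × ℝ} {C : ℝ} (hC : 0 ≤ C)
    (h : ∀ᶠ y in 𝓝 x, f y - f x - (p.1 * (y.1 - x.1) + p.2 * (y.2 - x.2)) ≤ C * ‖y - x‖ ^ 2) :
    SuperDiff f x p := by
  intro δ hδ
  have h2 : ∀ᶠ y in 𝓝 x, dist y x < δ / (C + 1) :=
    Metric.ball_mem_nhds x (by positivity)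
  filter_upwards [h, h2] with y hy hy2
  refine hy.trans ?_
  rw [dist_eq_norm, lt_div_iff₀ (by positivity)] at hy2
  have hn := norm_nonneg (y - x)
  nlinarith

lemma subDiff_of_quad {f : ℝ × ℝ → ℝ} {x p : ℝ × ℝ} {C : ℝ} (hC : 0 ≤ C)
    (h : ∀ᶠ y in 𝓝 x, -(C * ‖y - x‖ ^ 2) ≤ f y - f x - (p.1 * (y.1 - x.1) + p.2 * (y.2 - x.2))) :
    SubDiff f x p := by
  intro δ hδ
  have h2 : ∀ᶠ y in 𝓝 x, dist y x < δ / (C + 1) :=
    Metric.ball_mem_nhds x (by positivity)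
  filter_upwards [h, h2] with y hy hy2
  refine le_trans ?_ hy
  rw [dist_eq_norm, lt_div_iff₀ (by positivity)] at hy2
  have hn := norm_nonneg (y - x)
  nlinarith

lemma pos_sq (u v : ℝ) : (max v 0) ^ 2 ≤ (max u 0) ^ 2 + 2 * max u 0 * (v - u) + (v - u) ^ 2 := by
  have h1 : (max u 0) ^ 2 + 2 * max u 0 * (v - u) + (v - u) ^ 2 = (max u 0 + (v - u)) ^ 2 := by ring
  rw [h1]
  have h2 : u ≤ max u 0 := le_max_left _ _
  rcases le_total v 0 with hv | hv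
  · rw [max_eq_right hv]
    have := sq_nonneg (max u 0 + (v - u))
    simpa using this
  · rw [max_eq_left hv]
    have : v ≤ max u 0 + (v - u) := by linarith
    exact pow_le_pow_left₀ hv this 2

lemma sq_le_norm (y x : ℝ × ℝ) : (y.1 - x.1) ^ 2 ≤ ‖y - x‖ ^ 2 ∧ (y.2 - x.2) ^ 2 ≤ ‖y - x‖ ^ 2 := by
  constructor
  · have := norm_fst_le (y - x)
    rw [← sq_abs (y.1 - x.1)]
    exact pow_le_pow_left₀ (abs_nonneg _) this 2
  · have := norm_snd_le (y - x)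
    rw [← sq_abs (y.2 - x.2)]
    exact pow_le_pow_left₀ (abs_nonneg _) this 2

lemma eventually_mem_rect {a b : ℝ} {z : ℝ × ℝ} (h1 : 0 < z.1) (h2 : z.1 < a) (h3 : 0 < z.2)
    (h4 : z.2 < b) : ∀ᶠ y in 𝓝 z, y ∈ Icc (0 : ℝ) a ×ˢ Icc (0 : ℝ) b :=
  prod_mem_nhds (Icc_mem_nhds h1 h2) (Icc_mem_nhds h3 h4)

/-- Supersolutions with nonnegative data are nonnegative. -/
lemma super_nonneg {α : ℝ} (hα : 0 < α) {M : ℝ × ℝ → ℝ} (hc : ContinuousOn M (Ici 0 ×ˢ Ici 0))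
    (hM : ∀ z : ℝ × ℝ, 0 < z.1 → 0 < z.2 → ∀ p : ℝ × ℝ, SubDiff M z p →
      0 ≤ p.1 + (max p.2 0) ^ α * M z)
    (h0 : ∀ ρ : ℝ, 0 ≤ ρ → 0 ≤ M (0, ρ)) (h1 : ∀ t : ℝ, 0 ≤ t → 0 ≤ M (t, 0))
    (t₀ ρ₀ : ℝ) (ht₀ : 0 ≤ t₀) (hρ₀ : 0 ≤ ρ₀) : 0 ≤ M (t₀, ρ₀) := by
  by_contra hneg
  push Not at hneg
  have ht : 0 < t₀ := lt_of_le_of_ne ht₀ (fun h => by subst h; exact absurd (h0 ρ₀ hρ₀) (not_le.mpr hneg))
  have hρ : 0 < ρ₀ := lt_of_le_of_ne hρ₀ (fun h => by subst h; exact absurd (h1 t₀ ht₀) (not_le.mpr hneg))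
  set K : Set (ℝ × ℝ) := Icc 0 (t₀ + 1) ×ˢ Icc 0 (ρ₀ + 1) with hK
  have hKc : IsCompact K := isCompact_Icc.prod isCompact_Icc
  have hKs : K ⊆ Ici 0 ×ˢ Ici 0 := prod_mono Icc_subset_Ici_self Icc_subset_Ici_self
  obtain ⟨L, hL⟩ := hKc.exists_bound_of_continuousOn (hc.mono hKs)
  have hx₀ : ((t₀, ρ₀) : ℝ × ℝ) ∈ K := ⟨⟨ht₀, by simp⟩, ⟨hρ₀, by simp⟩⟩
  have hL0 : 0 ≤ L := (norm_nonneg _).trans (hL _ hx₀)
  set η : ℝ := -M (t₀, ρ₀) / (2 * t₀) with hη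
  have hηpos : 0 < η := by
    apply div_pos (by linarith) (by linarith)
  set Φ : ℝ × ℝ → ℝ := fun z =>
    M z + (η * z.1 + (L + 1) * (max (z.2 - ρ₀) 0) ^ 2 + (L + 1) * (max (z.1 - t₀) 0) ^ 2) with hΦ
  have hΦc : ContinuousOn Φ K := by
    apply (hc.mono hKs).add
    apply Continuous.continuousOn
    fun_prop
  obtain ⟨z, hzK, hz⟩ := hKc.exists_isMinOn ⟨_, hx₀⟩ hΦc
  have hzmin : ∀ y ∈ K, Φ z ≤ Φ y := fun y hy => hz hy
  have hΦ0 : Φ (t₀, ρ₀) < 0 := by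
    simp only [hΦ, sub_self, max_self]
    have : η * t₀ = -M (t₀, ρ₀) / 2 := by
      rw [hη]; field_simp
    rw [this]
    linarith
  have hΦz : Φ z < 0 := (hzmin _ hx₀).trans_lt hΦ0
  have hMz : -L ≤ M z := (abs_le.mp (hL z hzK)).1
  obtain ⟨⟨hz1, hz2⟩, hz3, hz4⟩ := hzK
  have hpen1 : 0 ≤ (L + 1) * (max (z.2 - ρ₀) 0) ^ 2 := by positivity
  have hpen2 : 0 ≤ (L + 1) * (max (z.1 - t₀) 0) ^ 2 := by positivity
  have hpen3 : 0 ≤ η * z.1 := by positivity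
  have hz1' : 0 < z.1 := by
    refine lt_of_le_of_ne hz1 (fun h => ?_)
    have h5 : z = (0, z.2) := Prod.ext h.symm rfl
    have h6 := h0 z.2 hz3
    rw [← h5] at h6
    have h7 : 0 ≤ Φ z := by simp only [hΦ]; linarith
    linarith
  have hz3' : 0 < z.2 := by
    refine lt_of_le_of_ne hz3 (fun h => ?_)
    have h5 : z = (z.1, 0) := Prod.ext rfl h.symm
    have h6 := h1 z.1 hz1
    rw [← h5] at h6
    have h7 : 0 ≤ Φ z := by simp only [hΦ]; linarith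
    linarith
  have hz2' : z.1 < t₀ + 1 := by
    refine lt_of_le_of_ne hz2 (fun h => ?_)
    have h5 : (L + 1) * (max (z.1 - t₀) 0) ^ 2 = L + 1 := by
      rw [h]; simp
    have h7 : 0 ≤ Φ z := by simp only [hΦ]; linarith
    linarith
  have hz4' : z.2 < ρ₀ + 1 := by
    refine lt_of_le_of_ne hz4 (fun h => ?_)
    have h5 : (L + 1) * (max (z.2 - ρ₀) 0) ^ 2 = L + 1 := by
      rw [h]; simp
    have h7 : 0 ≤ Φ z := by simp only [hΦ]; linarith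
    linarith
  set p : ℝ × ℝ := (-(η + (L + 1) * (2 * max (z.1 - t₀) 0)), -((L + 1) * (2 * max (z.2 - ρ₀) 0)))
    with hp
  have hsub : SubDiff M z p := by
    apply subDiff_of_quad (C := 2 * (L + 1)) (by positivity)
    filter_upwards [eventually_mem_rect hz1' hz2' hz3' hz4'] with y hy
    have h8 := hzmin y hy
    simp only [hΦ] at h8
    have h9 := pos_sq (z.1 - t₀) (y.1 - t₀)
    have h10 := pos_sq (z.2 - ρ₀) (y.2 - ρ₀)
    have h11 := sq_le_norm y z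
    have h9' := mul_le_mul_of_nonneg_left h9 (by positivity : 0 ≤ L + 1)
    have h10' := mul_le_mul_of_nonneg_left h10 (by positivity : 0 ≤ L + 1)
    have h12 := mul_le_mul_of_nonneg_left h11.1 (by positivity : 0 ≤ L + 1)
    have h13 := mul_le_mul_of_nonneg_left h11.2 (by positivity : 0 ≤ L + 1)
    simp only [hp]
    linarith
  have hfin := hM z hz1' hz3' p hsub
  have hp2 : max p.2 0 = 0 := by
    apply max_eq_right
    simp only [hp]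
    have : 0 ≤ max (z.2 - ρ₀) 0 := le_max_right _ _
    nlinarith
  rw [hp2, Real.zero_rpow hα.ne', zero_mul, add_zero] at hfin
  have hp1 : p.1 < 0 := by
    simp only [hp]
    have : 0 ≤ max (z.1 - t₀) 0 := le_max_right _ _
    nlinarith
  linarith

/-- Comparison principle. -/
lemma comparison {α : ℝ} (hα : 0 < α) {m₀ : ℝ → ℝ} (hm₀ : ∀ ρ, 0 ≤ ρ → 0 ≤ m₀ ρ)
    {m M : ℝ × ℝ → ℝ} (hm : IsSubsolution α m₀ m) (hM : IsSupersolution α m₀ M)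
    (t₀ ρ₀ : ℝ) (ht₀ : 0 ≤ t₀) (hρ₀ : 0 ≤ ρ₀) : m (t₀, ρ₀) ≤ M (t₀, ρ₀) := by
  obtain ⟨hmc, hmv, hm0, hm1⟩ := hm
  obtain ⟨hMc, hMv, hM0, hM1⟩ := hM
  have hMnn : ∀ t ρ : ℝ, 0 ≤ t → 0 ≤ ρ → 0 ≤ M (t, ρ) :=
    super_nonneg hα hMc hMv (fun ρ hρ => (hm₀ ρ hρ).trans (hM0 ρ hρ)) hM1
  -- boundary comparison
  have hbd : ∀ z : ℝ × ℝ, 0 ≤ z.1 → 0 ≤ z.2 → (z.1 = 0 ∨ z.2 = 0) → m z ≤ M z := by
    rintro ⟨a, b⟩ ha hb (h | h)
    · simp only at h; subst h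
      exact (hm0 b hb).trans (hM0 b hb)
    · simp only at h; subst h
      exact (hm1 a ha).trans (hM1 a ha)
  by_contra hlt
  push Not at hlt
  have ht : 0 < t₀ := lt_of_le_of_ne ht₀ (fun h => absurd (hbd (t₀, ρ₀) ht₀ hρ₀ (Or.inl h.symm))
    (not_le.mpr hlt))
  have hρ : 0 < ρ₀ := lt_of_le_of_ne hρ₀ (fun h => absurd (hbd (t₀, ρ₀) ht₀ hρ₀ (Or.inr h.symm))
    (not_le.mpr hlt))
  set K : Set (ℝ × ℝ) := Icc 0 (t₀ + 1) ×ˢ Icc 0 (ρ₀ + 1) with hK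
  set K' : Set (ℝ × ℝ) := Icc 0 (t₀ + 2) ×ˢ Icc 0 (ρ₀ + 2) with hK'
  have hKc : IsCompact K := isCompact_Icc.prod isCompact_Icc
  have hKc' : IsCompact K' := isCompact_Icc.prod isCompact_Icc
  have hKs' : K' ⊆ Ici 0 ×ˢ Ici 0 := prod_mono Icc_subset_Ici_self Icc_subset_Ici_self
  have hKK' : K ⊆ K' := prod_mono (Icc_subset_Icc_right (by linarith))
    (Icc_subset_Icc_right (by linarith))
  obtain ⟨L1, hL1⟩ := hKc'.exists_bound_of_continuousOn (hmc.mono hKs')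
  obtain ⟨L2, hL2⟩ := hKc'.exists_bound_of_continuousOn (hMc.mono hKs')
  have hx₀ : ((t₀, ρ₀) : ℝ × ℝ) ∈ K := ⟨⟨ht₀, by simp⟩, ⟨hρ₀, by simp⟩⟩
  have hL10 : 0 ≤ L1 := (norm_nonneg _).trans (hL1 _ (hKK' hx₀))
  have hL20 : 0 ≤ L2 := (norm_nonneg _).trans (hL2 _ (hKK' hx₀))
  set L : ℝ := L1 + L2 + 1 with hL
  have hLpos : 0 < L := by positivity
  -- gap
  set c : ℝ := (m (t₀, ρ₀) - M (t₀, ρ₀)) / 2 with hc
  have hcpos : 0 < c := by
    simp only [hc]; linarith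
  set η : ℝ := c / t₀ with hη
  have hηpos : 0 < η := div_pos hcpos ht
  -- uniform continuity on K'
  have hu1 := hKc'.uniformContinuousOn_of_continuous (hmc.mono hKs')
  have hu2 := hKc'.uniformContinuousOn_of_continuous (hMc.mono hKs')
  rw [Metric.uniformContinuousOn_iff] at hu1 hu2
  obtain ⟨d1, hd1, hu1⟩ := hu1 c hcpos
  obtain ⟨d2, hd2, hu2⟩ := hu2 c hcpos
  set d : ℝ := min (min d1 d2) 1 with hd
  have hdpos : 0 < d := by simp only [hd]; positivity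
  -- penalisation parameter: N * r^2 with N d^2 > L
  obtain ⟨N, hN⟩ : ∃ N : ℝ, L < N * d ^ 2 := by
    refine ⟨(L + 1) / d ^ 2, ?_⟩
    rw [div_mul_cancel₀ _ (by positivity)]
    linarith
  have hNpos : 0 < N := by
    by_contra h
    push Not at h
    have : N * d ^ 2 ≤ 0 := mul_nonpos_of_nonpos_of_nonneg h (by positivity)
    linarith
  set Φ : (ℝ × ℝ) × (ℝ × ℝ) → ℝ := fun w =>
    m w.1 - M w.2 - (N * ((w.1.1 - w.2.1) ^ 2 + (w.1.2 - w.2.2) ^ 2) + η * w.1.1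
      + L * (max (w.1.2 - ρ₀) 0) ^ 2 + L * (max (w.1.1 - t₀) 0) ^ 2) with hΦ
  have hΦc : ContinuousOn Φ (K ×ˢ K') := by
    apply ContinuousOn.sub
    · apply ContinuousOn.sub
      · exact (hmc.mono (hKK'.trans hKs')).comp continuousOn_fst (fun w hw => hw.1)
      · exact (hMc.mono hKs').comp continuousOn_snd (fun w hw => hw.2)
    · apply Continuous.continuousOn
      fun_prop
  obtain ⟨⟨x, y⟩, hwK, hw⟩ := (hKc.prod hKc').exists_isMaxOn ⟨((t₀, ρ₀), (t₀, ρ₀)), hx₀, hKK' hx₀⟩ hΦc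
  have hxK : x ∈ K := hwK.1
  have hyK : y ∈ K' := hwK.2
  have hmax : ∀ x' ∈ K, ∀ y' ∈ K', Φ (x', y') ≤ Φ (x, y) := fun x' hx' y' hy' => hw (mk_mem_prod hx' hy')
  have hΦ0 : Φ ((t₀, ρ₀), (t₀, ρ₀)) = c := by
    simp only [hΦ, sub_self, max_self]
    have : η * t₀ = c := by rw [hη]; field_simp
    rw [this]
    simp only [hc]; ring
  have hΦxy : c ≤ Φ (x, y) := by
    rw [← hΦ0]
    exact hmax _ hx₀ _ (hKK' hx₀)
  have hmx := abs_le.mp (hL1 x (hKK' hxK))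
  have hMy := abs_le.mp (hL2 y hyK)
  have hpen1 : 0 ≤ L * (max (x.2 - ρ₀) 0) ^ 2 := by positivity
  have hpen2 : 0 ≤ L * (max (x.1 - t₀) 0) ^ 2 := by positivity
  obtain ⟨⟨hx1, hx2⟩, hx3, hx4⟩ := id hxK
  obtain ⟨⟨hy1, hy2⟩, hy3, hy4⟩ := id hyK
  have hpen3 : 0 ≤ η * x.1 := by positivity
  have hpen4 : 0 ≤ N * ((x.1 - y.1) ^ 2 + (x.2 - y.2) ^ 2) := by positivity
  have hval : Φ (x, y) = m x - M y - (N * ((x.1 - y.1) ^ 2 + (x.2 - y.2) ^ 2) + η * x.1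
      + L * (max (x.2 - ρ₀) 0) ^ 2 + L * (max (x.1 - t₀) 0) ^ 2) := rfl
  have hgap : c ≤ m x - M y := by linarith
  -- closeness
  have hN2 : N * ((x.1 - y.1) ^ 2 + (x.2 - y.2) ^ 2) < N * d ^ 2 := by linarith
  have hN3 : (x.1 - y.1) ^ 2 + (x.2 - y.2) ^ 2 < d ^ 2 := lt_of_mul_lt_mul_left hN2 hNpos.le
  have hcl1 : |x.1 - y.1| < d := abs_lt_of_sq_lt_sq (by nlinarith [sq_nonneg (x.2 - y.2)]) hdpos.le
  have hcl2 : |x.2 - y.2| < d := abs_lt_of_sq_lt_sq (by nlinarith [sq_nonneg (x.1 - y.1)]) hdpos.le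
  have hdist : dist x y < d := by
    rw [Prod.dist_eq]
    exact max_lt hcl1 hcl2
  have hd1' : dist x y < d1 := hdist.trans_le ((min_le_left _ _).trans (min_le_left _ _))
  have hd2' : dist x y < d2 := hdist.trans_le ((min_le_left _ _).trans (min_le_right _ _))
  have hd3' : d ≤ 1 := min_le_right _ _
  have hum := abs_lt.mp (hu1 x (hKK' hxK) y hyK hd1')
  have huM := abs_lt.mp (hu2 x (hKK' hxK) y hyK hd2')
  -- interior
  have hx1' : 0 < x.1 := by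
    refine lt_of_le_of_ne hx1 (fun h => ?_)
    have := hbd x hx1 hx3 (Or.inl h.symm)
    linarith
  have hx3' : 0 < x.2 := by
    refine lt_of_le_of_ne hx3 (fun h => ?_)
    have := hbd x hx1 hx3 (Or.inr h.symm)
    linarith
  have hy1' : 0 < y.1 := by
    refine lt_of_le_of_ne hy1 (fun h => ?_)
    have := hbd y hy1 hy3 (Or.inl h.symm)
    linarith
  have hy3' : 0 < y.2 := by
    refine lt_of_le_of_ne hy3 (fun h => ?_)
    have := hbd y hy1 hy3 (Or.inr h.symm)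
    linarith
  have hx2' : x.1 < t₀ + 1 := by
    refine lt_of_le_of_ne hx2 (fun h => ?_)
    have h5 : L * (max (x.1 - t₀) 0) ^ 2 = L := by
      rw [h]; simp
    linarith
  have hx4' : x.2 < ρ₀ + 1 := by
    refine lt_of_le_of_ne hx4 (fun h => ?_)
    have h5 : L * (max (x.2 - ρ₀) 0) ^ 2 = L := by
      rw [h]; simp
    linarith
  have hy2' : y.1 < t₀ + 2 := by
    have := (abs_lt.mp hcl1).1
    linarith
  have hy4' : y.2 < ρ₀ + 2 := by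
    have := (abs_lt.mp hcl2).1
    linarith
  -- the two jets
  set a : ℝ := 2 * N * (x.1 - y.1) with ha
  set q : ℝ := 2 * N * (x.2 - y.2) with hq
  set e1 : ℝ := η + L * (2 * max (x.1 - t₀) 0) with he1
  set e2 : ℝ := L * (2 * max (x.2 - ρ₀) 0) with he2
  have hsup : SuperDiff m x (a + e1, q + e2) := by
    apply superDiff_of_quad (C := 2 * (N + L)) (by positivity)
    filter_upwards [eventually_mem_rect hx1' hx2' hx3' hx4'] with x' hx'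
    have h8 := hmax x' hx' y hyK
    simp only [hΦ] at h8
    have h9 := pos_sq (x.1 - t₀) (x'.1 - t₀)
    have h10 := pos_sq (x.2 - ρ₀) (x'.2 - ρ₀)
    have h11 := sq_le_norm x' x
    have h9' := mul_le_mul_of_nonneg_left h9 hLpos.le
    have h10' := mul_le_mul_of_nonneg_left h10 hLpos.le
    have h12 := mul_le_mul_of_nonneg_left h11.1 (by positivity : 0 ≤ N + L)
    have h13 := mul_le_mul_of_nonneg_left h11.2 (by positivity : 0 ≤ N + L)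
    simp only [ha, hq, he1, he2]
    linarith
  have hsub : SubDiff M y (a, q) := by
    apply subDiff_of_quad (C := 2 * N) (by positivity)
    filter_upwards [eventually_mem_rect hy1' hy2' hy3' hy4'] with y' hy'
    have h8 := hmax x hxK y' hy'
    simp only [hΦ] at h8
    have h11 := sq_le_norm y' y
    have h12 := mul_le_mul_of_nonneg_left h11.1 hNpos.le
    have h13 := mul_le_mul_of_nonneg_left h11.2 hNpos.le
    simp only [ha, hq]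
    linarith
  have hf1 := hmv x hx1' hx3' _ hsup
  have hf2 := hMv y hy1' hy3' _ hsub
  simp only at hf1 hf2
  have hMy0 : 0 ≤ M y := hMnn y.1 y.2 hy1 hy3
  have hmx0 : 0 < m x := by linarith
  have he2' : 0 ≤ e2 := by simp only [he2]; positivity
  have he1' : 0 < e1 := by
    simp only [he1]
    have : 0 ≤ L * (2 * max (x.1 - t₀) 0) := by positivity
    linarith
  have hpow : (max q 0) ^ α ≤ (max (q + e2) 0) ^ α := by
    apply Real.rpow_le_rpow (le_max_right _ _) _ hα.le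
    exact max_le_max (by linarith) le_rfl
  have hpow0 : 0 ≤ (max q 0) ^ α := Real.rpow_nonneg (le_max_right _ _) _
  have h14 : (max q 0) ^ α * M y ≤ (max (q + e2) 0) ^ α * m x :=
    mul_le_mul hpow (by linarith) hMy0 (hpow0.trans hpow)
  linarith

/-- **Q1 of MP_fe8c84_an is true**, in a stronger form.  For every exponent `α > 0` (in particular
`0 < α < 1`) and every continuous nondecreasing datum `m₀ : [0,∞) → [0,∞)` with `m₀(0) = 0`: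

* (comparison principle without uniform continuity) every viscosity subsolution is `≤` every
  viscosity supersolution on `[0,∞)²`;
* (uniqueness) any two viscosity solutions coincide on `[0,∞)²`. -/
theorem result (α : ℝ) (hα : 0 < α) (m₀ : ℝ → ℝ) (_hcont : ContinuousOn m₀ (Ici 0))
    (hmono : MonotoneOn m₀ (Ici 0)) (h0 : m₀ 0 = 0) :
    (∀ m M : ℝ × ℝ → ℝ, IsSubsolution α m₀ m → IsSupersolution α m₀ M →
      ∀ t ρ : ℝ, 0 ≤ t → 0 ≤ ρ → m (t, ρ) ≤ M (t, ρ)) ∧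
    (∀ m₁ m₂ : ℝ × ℝ → ℝ, IsSolution α m₀ m₁ → IsSolution α m₀ m₂ →
      ∀ t ρ : ℝ, 0 ≤ t → 0 ≤ ρ → m₁ (t, ρ) = m₂ (t, ρ)) := by
  have hnn : ∀ ρ, 0 ≤ ρ → 0 ≤ m₀ ρ := fun ρ hρ => by
    rw [← h0]; exact hmono (mem_Ici.mpr le_rfl) hρ hρ
  have hcomp : ∀ m M : ℝ × ℝ → ℝ, IsSubsolution α m₀ m → IsSupersolution α m₀ M →
      ∀ t ρ : ℝ, 0 ≤ t → 0 ≤ ρ → m (t, ρ) ≤ M (t, ρ) :=
    fun m M hm hM t ρ ht hρ => comparison hα hnn hm hM t ρ ht hρ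
  exact ⟨hcomp, fun m₁ m₂ h1 h2 t ρ ht hρ =>
    le_antisymm (hcomp m₁ m₂ h1.1 h2.2 t ρ ht hρ) (hcomp m₂ m₁ h2.1 h1.2 t ρ ht hρ)⟩

end Pool.Agent.Results.MP_fe8c84_an.Comparison
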